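import Mathlib

/-!
Linear hyperkähler (hyperHamiltonian) actions, moment maps, the norm-square of the hyperkähler
moment map, Borel constructions, singular cohomology and the Kirwan map.
-/

set_option autoImplicit false

open Set
open scoped Gradient

namespace Pool.Agent.K9h42.HK

/-! ### Singular cohomology with rational coefficients -/

/-- Singular `n`-simplices of `X`. -/
def Simplex (X : Type) [TopologicalSpace X] (n : ℕ) : Type := C(stdSimplex ℝ (Fin (n + 1)), X)

/-- The `i`-th face of a singular `(n+1)`-simplex. -/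
noncomputable def face {X : Type} [TopologicalSpace X] {n : ℕ} (i : Fin (n + 2))
    (σ : Simplex X (n + 1)) : Simplex X n :=
  ContinuousMap.comp σ ⟨stdSimplex.map i.succAbove, stdSimplex.continuous_map _⟩

/-- The singular coboundary of a rational cochain. -/
noncomputable def cobd {X : Type} [TopologicalSpace X] {n : ℕ} (c : Simplex X n → ℚ)
    (σ : Simplex X (n + 1)) : ℚ :=
  ∑ i : Fin (n + 2), (-1) ^ (i : ℕ) * c (face i σ)

/-- Singular cocycles. -/
def IsCocycle {X : Type} [TopologicalSpace X] {n : ℕ} (c : Simplex X n → ℚ) : Prop :=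
  ∀ σ, cobd c σ = 0

/-- Two cochains are cohomologous if they differ by a coboundary (in degree `0`: if they are
equal). -/
def Cohomologous {X : Type} [TopologicalSpace X] : {n : ℕ} → (c c' : Simplex X n → ℚ) → Prop
  | 0, c, c' => c = c'
  | _ + 1, c, c' => ∃ b, ∀ σ, c σ - c' σ = cobd b σ

/-- The singular cohomology `H^n(X; ℚ)`: cocycles modulo coboundaries. -/
def Coh (X : Type) [TopologicalSpace X] (n : ℕ) : Type :=
  Quot fun c c' : {c : Simplex X n → ℚ // IsCocycle c} => Cohomologous c.1 c'.1

lemma pull_cocycle {X Y : Type} [TopologicalSpace X] [TopologicalSpace Y] (f : C(X, Y)) {n : ℕ}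
    {c : Simplex Y n → ℚ} (hc : IsCocycle c) :
    IsCocycle (X := X) fun σ => c (ContinuousMap.comp f σ) :=
  fun σ => hc (ContinuousMap.comp f σ)

lemma pull_cohomologous {X Y : Type} [TopologicalSpace X] [TopologicalSpace Y] (f : C(X, Y)) :
    ∀ {n : ℕ} {c c' : Simplex Y n → ℚ}, Cohomologous c c' →
      Cohomologous (X := X) (fun σ => c (ContinuousMap.comp f σ))
        (fun σ => c' (ContinuousMap.comp f σ))
  | 0, _, _, h => by
    have h' : _ = _ := h
    subst h'
    exact (rfl : _ = _)
  | _ + 1, _, _, ⟨b, hb⟩ => ⟨fun σ => b (ContinuousMap.comp f σ), fun σ => hb _⟩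

/-- The pullback map in singular cohomology. -/
def cohMap {X Y : Type} [TopologicalSpace X] [TopologicalSpace Y] (f : C(X, Y)) (n : ℕ) :
    Coh Y n → Coh X n :=
  Quot.map (fun c => ⟨fun σ => c.1 (ContinuousMap.comp f σ), pull_cocycle f c.2⟩)
    fun _ _ h => pull_cohomologous f h

/-! ### Linear hyperHamiltonian actions -/

section

variable {V G : Type} [NormedAddCommGroup V] [InnerProductSpace ℝ V] [Group G] [MulAction G V]

/-- The Lie algebra of `G`, as the set of the vector fields `X` on `V` generated by curves in `G`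
through the identity: `X v` is the derivative at `0` of `s ↦ γ(s) v`. (If `G` is a compact group
and acts faithfully and linearly on `V`, this is the Lie algebra of the Lie group `G`.) -/
def lieAlg (V G : Type) [NormedAddCommGroup V] [InnerProductSpace ℝ V] [Group G] [MulAction G V] :
    Set (V → V) :=
  {X | ∃ γ : ℝ → G, γ 0 = 1 ∧ ∀ v : V, HasDerivAt (fun s => γ s • v) (X v) 0}

/-- A flat hyperkähler structure on the real inner product space `V`: three orthogonal linear maps
`I = J 0`, `J = J 1`, `K = J 2` which square to `-1`, with `I J = K = - J I`. Since they do not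
depend on the point, they are parallel for the flat metric, so `V` is a hyperkähler manifold with
these complex structures and with Kähler forms `ω_a(u, v) = ⟪J_a u, v⟫`. -/
structure HyperStr (V : Type) [NormedAddCommGroup V] [InnerProductSpace ℝ V] where
  J : Fin 3 → V →ₗ[ℝ] V
  isom : ∀ a u v, inner ℝ (J a u) (J a v) = inner ℝ u v
  sq : ∀ a v, J a (J a v) = -v
  mul : ∀ v, J 0 (J 1 v) = J 2 v
  anti : ∀ v, J 1 (J 0 v) = -J 2 v

/-- The action of `G` is faithful and preserves the metric and the three complex structures.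
(Maps of `V` onto itself which preserve the inner product are linear.) -/
structure Preserves (H : HyperStr V) (G : Type) [Group G] [MulAction G V] : Prop where
  faithful : ∀ g : G, (∀ v : V, g • v = v) → g = 1
  metric : ∀ (g : G) (u v : V), inner ℝ (g • u) (g • v) = inner ℝ u v
  complex : ∀ (g : G) (a : Fin 3) (v : V), g • H.J a v = H.J a (g • v)

/-- `μ = (μ_I, μ_J, μ_K)` is a `G`-equivariant hyperkähler moment map for the linear action of `G`
on `V`. Its component `μ a x` is a linear functional on the Lie algebra. The conditions are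
`d⟨μ_a, X⟩ = ω_a(X, ·)` for `X` in the Lie algebra, that is, the gradient of `⟨μ_a, X⟩` is `J_a X`,
and `⟨μ_a(g x), Ad_g X⟩ = ⟨μ_a(x), X⟩`, where `Ad_g X` is the vector field `v ↦ g X(g⁻¹ v)`. -/
structure IsMomentMap [CompleteSpace V] (H : HyperStr V) (G : Type) [Group G] [MulAction G V]
    (μ : Fin 3 → V → (V → V) → ℝ) : Prop where
  add : ∀ a x, ∀ X ∈ lieAlg V G, ∀ Y ∈ lieAlg V G, μ a x (X + Y) = μ a x X + μ a x Y
  smul : ∀ a x, ∀ X ∈ lieAlg V G, ∀ r : ℝ, μ a x (r • X) = r * μ a x X
  grad : ∀ a x, ∀ X ∈ lieAlg V G, HasGradientAt (fun y => μ a y X) (H.J a (X x)) x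
  equivariant : ∀ a x, ∀ X ∈ lieAlg V G, ∀ g : G, μ a (g • x) (fun v => g • X (g⁻¹ • v)) = μ a x X

/-- The zero level set `μ_HK⁻¹(0)`. -/
def zeroLevel (G : Type) [Group G] [MulAction G V] (μ : Fin 3 → V → (V → V) → ℝ) : Set V :=
  {x | ∀ a, ∀ X ∈ lieAlg V G, μ a x X = 0}

/-- `e` is a basis of the Lie algebra of `G` (which is a real vector space). -/
def IsLieBasis (G : Type) [Group G] [MulAction G V] {n : ℕ} (e : Fin n → V → V) : Prop :=
  (∀ c : Fin n → ℝ, ∑ i, c i • e i = 0 → c = 0) ∧
    ∀ X : V → V, X ∈ lieAlg V G ↔ ∃ c : Fin n → ℝ, X = ∑ i, c i • e i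

/-- The norm-square `‖μ_HK‖² = ‖μ_I‖² + ‖μ_J‖² + ‖μ_K‖²` for the inner product on the Lie algebra
for which the basis `e` is orthonormal. -/
def normSq (μ : Fin 3 → V → (V → V) → ℝ) {n : ℕ} (e : Fin n → V → V) (x : V) : ℝ :=
  ∑ a, ∑ i, μ a x (e i) ^ 2

/-- The forward half of each flow line of `-∇f` is defined for all times and relatively compact:
for every point `x` the equation `γ' = -∇f(γ)`, `γ(0) = x` has a solution for all `t ≥ 0`, and there
is a compact set which contains `γ(t)` for every solution `γ` on an interval `[0, T]` with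
`γ(0) = x` and every `t` in `[0, T]`. -/
def CompactTrajectories [CompleteSpace V] (f : V → ℝ) : Prop :=
  ∀ x : V, (∃ γ : ℝ → V, γ 0 = x ∧ ∀ t, 0 ≤ t → HasDerivAt γ (-(∇ f (γ t))) t) ∧
    ∃ K : Set V, IsCompact K ∧ ∀ (T : ℝ) (γ : ℝ → V), γ 0 = x →
      (∀ t ∈ Icc 0 T, HasDerivWithinAt γ (-(∇ f (γ t))) (Icc 0 T) t) → ∀ t ∈ Icc 0 T, γ t ∈ K

/-- `f` has compact sublevel sets. -/
def CompactSublevels (f : V → ℝ) : Prop := ∀ c : ℝ, IsCompact {x | f x ≤ c}

/-- The group acts freely on the zero level of `μ`, which is not empty. -/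
def FreeZeroLevel (G : Type) [Group G] [MulAction G V] (μ : Fin 3 → V → (V → V) → ℝ) : Prop :=
  (zeroLevel G μ).Nonempty ∧ ∀ x ∈ zeroLevel G μ, ∀ g : G, g • x = x → g = 1

end

/-! ### The Kirwan map -/

/-- The Borel construction `(E × S)/G` for a `G`-invariant subset `S` of `V`. If `E` is
contractible with a free `G`-action (`E = EG`), its cohomology is `H_G(S)`. -/
def Borel {V : Type} (G : Type) [SMul G V] (E : Type) [SMul G E] (S : Set V) : Type :=
  Quot fun p q : E × S => ∃ g : G, q.1 = g • p.1 ∧ (q.2 : V) = g • (p.2 : V)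

instance {V : Type} [TopologicalSpace V] (G : Type) [SMul G V] (E : Type) [TopologicalSpace E]
    [SMul G E] (S : Set V) : TopologicalSpace (Borel G E S) :=
  inferInstanceAs (TopologicalSpace (Quot _))

lemma incl_continuous {V : Type} [TopologicalSpace V] (E : Type) [TopologicalSpace E] (S : Set V) :
    Continuous fun p : E × S => ((p.1, ⟨p.2.1, trivial⟩) : E × (Set.univ : Set V)) :=
  continuous_fst.prodMk ((continuous_subtype_val.comp continuous_snd).subtype_mk _)

/-- The map of Borel constructions induced by the inclusion `S ⊆ V`. -/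
def borelIncl {V : Type} [TopologicalSpace V] (G : Type) [SMul G V] (E : Type)
    [TopologicalSpace E] [SMul G E] (S : Set V) :
    C(Borel G E S, Borel G E (Set.univ : Set V)) where
  toFun := Quot.map (fun p => (p.1, ⟨p.2.1, trivial⟩)) fun _ _ h => h
  continuous_toFun := continuous_quot_lift _ (continuous_quot_mk.comp (incl_continuous E S))

/-- The restriction map `H^k_G(V; ℚ) → H^k_G(S; ℚ)` in degree `k`, computed with `E` as a
model of `EG`. For `S = μ_HK⁻¹(0)` it is the Kirwan map. -/
def kirwan {V : Type} [TopologicalSpace V] (G : Type) [SMul G V] (E : Type) [TopologicalSpace E]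
    [SMul G E] (S : Set V) (k : ℕ) :
    Coh (Borel G E (Set.univ : Set V)) k → Coh (Borel G E S) k :=
  cohMap (borelIncl G E S) k

/-- The map `H^k_G(V; ℚ) → H^k_G(S; ℚ)` is not surjective, whatever contractible space `E` with a
continuous action of `G` is used in the Borel construction (in particular for `E = EG`). -/
def KirwanFails {V : Type} [TopologicalSpace V] (G : Type) [Group G] [TopologicalSpace G]
    [SMul G V] (S : Set V) (k : ℕ) : Prop :=
  ∀ (E : Type) [TopologicalSpace E] [MulAction G E] [ContinuousSMul G E] [ContractibleSpace E],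
    ¬ Function.Surjective (kirwan G E S k)

end Pool.Agent.K9h42.HK
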