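import Pool.Agent.K9h42.HK.Gen

/-!
The hyperkähler vector space `ℍ⁴`, and the group `Sp(1) × SO(2)`.
-/

set_option autoImplicit false

open Set Filter Topology Quaternion

namespace Pool.Agent.K9h42.HK

/-- Quaternionic space `ℍ⁴`, with its Euclidean inner product. -/
abbrev H4 : Type := PiLp 2 (fun _ : Fin 4 => ℍ[ℝ])

/-- The quaternion units `i, j, k`. -/
def unitQ : Fin 3 → ℍ[ℝ] := ![⟨0, 1, 0, 0⟩, ⟨0, 0, 1, 0⟩, ⟨0, 0, 0, 1⟩]

lemma inner_H (a b : ℍ[ℝ]) : inner ℝ a b = a.re * b.re + a.imI * b.imI + a.imJ * b.imJ + a.imK * b.imK := by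
  rw [Quaternion.inner_def]
  simp

lemma inner_H4 (x y : H4) : inner ℝ x y = inner ℝ (x 0) (y 0) + inner ℝ (x 1) (y 1) +
    inner ℝ (x 2) (y 2) + inner ℝ (x 3) (y 3) := by
  rw [PiLp.inner_apply, Fin.sum_univ_four]

/-- Right multiplication by a quaternion on `ℍ⁴`. -/
noncomputable def rmul (q : ℍ[ℝ]) : H4 →ₗ[ℝ] H4 where
  toFun := fun x => WithLp.toLp 2 fun i => x i * q
  map_add' := fun x y => by
    ext i : 1
    simp [add_mul]
  map_smul' := fun c x => by
    ext i : 1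
    simp

@[simp] lemma rmul_apply (q : ℍ[ℝ]) (x : H4) (i : Fin 4) : rmul q x i = x i * q := rfl

/-- The operator `(x₀, x₁, x₂, x₃) ↦ (a x₀ - b x₁, b x₀ + a x₁, p x₂, p x₃)` of `ℍ⁴`. -/
noncomputable def op (a b p : ℍ[ℝ]) : H4 →L[ℝ] H4 :=
  LinearMap.toContinuousLinearMap
    { toFun := fun x => WithLp.toLp 2 ![a * x 0 - b * x 1, b * x 0 + a * x 1, p * x 2, p * x 3]
      map_add' := fun x y => by
        ext i : 1
        fin_cases i <;> simp [mul_add] <;> abel
      map_smul' := fun c x => by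
        ext i : 1
        fin_cases i <;> simp [smul_sub, smul_add] }

@[simp] lemma op_0 (a b p : ℍ[ℝ]) (x : H4) : op a b p x 0 = a * x 0 - b * x 1 := rfl
@[simp] lemma op_1 (a b p : ℍ[ℝ]) (x : H4) : op a b p x 1 = b * x 0 + a * x 1 := rfl
@[simp] lemma op_2 (a b p : ℍ[ℝ]) (x : H4) : op a b p x 2 = p * x 2 := rfl
@[simp] lemma op_3 (a b p : ℍ[ℝ]) (x : H4) : op a b p x 3 = p * x 3 := rfl

lemma ext4 {x y : H4} (h0 : x 0 = y 0) (h1 : x 1 = y 1) (h2 : x 2 = y 2) (h3 : x 3 = y 3) :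
    x = y := by
  ext i : 1
  fin_cases i
  · exact h0
  · exact h1
  · exact h2
  · exact h3

lemma op_mul (a b p a' b' p' : ℍ[ℝ]) :
    op a b p * op a' b' p' = op (a * a' - b * b') (a * b' + b * a') (p * p') := by
  ext x : 1
  refine ext4 ?_ ?_ ?_ ?_
  · simp only [ContinuousLinearMap.mul_apply, op_0, op_1]
    noncomm_ring
  · simp only [ContinuousLinearMap.mul_apply, op_0, op_1]
    noncomm_ring
  · simp only [ContinuousLinearMap.mul_apply, op_2]
    noncomm_ring
  · simp only [ContinuousLinearMap.mul_apply, op_3]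
    noncomm_ring

lemma op_one : op 1 0 1 = 1 := by
  ext x : 1
  refine ext4 ?_ ?_ ?_ ?_ <;> simp

/-- The standard hyperkähler structure of `ℍ⁴`: `I, J, K` are the right multiplications by
`-i, -j, -k`. -/
noncomputable def HS : HyperStr H4 where
  J a := rmul (-(unitQ a))
  isom a u v := by
    rw [inner_H4, inner_H4]
    simp only [rmul_apply, inner_H]
    fin_cases a <;> simp [unitQ] <;> ring
  sq a v := by
    ext i : 1
    simp only [rmul_apply, PiLp.neg_apply]
    ext <;> fin_cases a <;> simp [unitQ]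
  mul v := by
    ext i : 1
    simp only [rmul_apply]
    ext <;> simp [unitQ]
  anti v := by
    ext i : 1
    simp only [rmul_apply, PiLp.neg_apply]
    ext <;> simp [unitQ]

lemma HS_J (a : Fin 3) (x : H4) (i : Fin 4) : HS.J a x i = x i * (-(unitQ a)) := rfl

/-- The group `Sp(1) × U(1)`. -/
def SG : Type := Metric.sphere (0 : ℍ[ℝ]) 1 × Circle

noncomputable instance : Group SG := inferInstanceAs (Group (Metric.sphere (0 : ℍ[ℝ]) 1 × Circle))
noncomputable instance : TopologicalSpace SG :=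
  inferInstanceAs (TopologicalSpace (Metric.sphere (0 : ℍ[ℝ]) 1 × Circle))
instance : IsTopologicalGroup SG :=
  inferInstanceAs (IsTopologicalGroup (Metric.sphere (0 : ℍ[ℝ]) 1 × Circle))
instance : ProperSpace ℍ[ℝ] := FiniteDimensional.proper ℝ ℍ[ℝ]
instance : CompactSpace SG :=
  inferInstanceAs (CompactSpace (Metric.sphere (0 : ℍ[ℝ]) 1 × Circle))
instance : T2Space SG :=
  inferInstanceAs (T2Space (Metric.sphere (0 : ℍ[ℝ]) 1 × Circle))
instance : ConnectedSpace SG := by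
  have h1 : ConnectedSpace (Metric.sphere (0 : ℍ[ℝ]) 1) := by
    rw [← isConnected_iff_connectedSpace]
    apply isConnected_sphere
    · rw [← Module.finrank_eq_rank, Quaternion.finrank_eq_four]
      norm_num
    · norm_num
  exact inferInstanceAs (ConnectedSpace (Metric.sphere (0 : ℍ[ℝ]) 1 × Circle))

/-- The homomorphism `Sp(1) × U(1) → GL(ℍ⁴)`: `(q, e^{iθ})` acts on `(x₀, x₁)` by the rotation by
the angle `θ` followed by left multiplication by `q`, and on `x₂, x₃` by left multiplication by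
`q`. -/
noncomputable def phi : SG →* (H4 →L[ℝ] H4) where
  toFun a := op ((a.2 : ℂ).re • (a.1 : ℍ[ℝ])) ((a.2 : ℂ).im • (a.1 : ℍ[ℝ])) (a.1 : ℍ[ℝ])
  map_one' := by
    have h1 : ((1 : SG).1 : ℍ[ℝ]) = 1 := rfl
    have h2 : ((1 : SG).2 : ℂ) = 1 := rfl
    rw [h1, h2]
    simp [op_one]
  map_mul' a b := by
    rw [op_mul]
    have h1 : ((a * b).1 : ℍ[ℝ]) = (a.1 : ℍ[ℝ]) * (b.1 : ℍ[ℝ]) := rfl
    have h2 : ((a * b).2 : ℂ) = (a.2 : ℂ) * (b.2 : ℂ) := rfl
    rw [h1, h2]
    congr 1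
    · simp only [Complex.mul_re, sub_smul, smul_mul_smul_comm]
    · simp only [Complex.mul_im, add_smul, smul_mul_smul_comm]

lemma phi_apply (a : SG) :
    phi a = op ((a.2 : ℂ).re • (a.1 : ℍ[ℝ])) ((a.2 : ℂ).im • (a.1 : ℍ[ℝ])) (a.1 : ℍ[ℝ]) := rfl

noncomputable instance : MulAction SG H4 where
  smul g x := phi g x
  one_smul x := by
    show phi 1 x = x
    rw [map_one]
    rfl
  mul_smul a b x := by
    show phi (a * b) x = phi a (phi b x)
    rw [map_mul]
    rfl

lemma smul_def (g : SG) (x : H4) : g • x = phi g x := rfl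

lemma circle_sq (z : Circle) : (z : ℂ).re ^ 2 + (z : ℂ).im ^ 2 = 1 := by
  have := Circle.normSq_coe z
  rw [Complex.normSq_apply] at this
  nlinarith

lemma sphere_sq (q : Metric.sphere (0 : ℍ[ℝ]) 1) : (q : ℍ[ℝ]).re ^ 2 + (q : ℍ[ℝ]).imI ^ 2 +
    (q : ℍ[ℝ]).imJ ^ 2 + (q : ℍ[ℝ]).imK ^ 2 = 1 := by
  have h : ‖(q : ℍ[ℝ])‖ = 1 := by simp
  have h2 := Quaternion.normSq_eq_norm_mul_self (q : ℍ[ℝ])
  rw [h, Quaternion.normSq_def'] at h2
  linarith

lemma inner_mul_left' (q : Metric.sphere (0 : ℍ[ℝ]) 1) (x y : ℍ[ℝ]) :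
    inner ℝ ((q : ℍ[ℝ]) * x) ((q : ℍ[ℝ]) * y) = inner ℝ x y := by
  have h := sphere_sq q
  rw [inner_H, inner_H]
  simp only [Quaternion.re_mul, Quaternion.imI_mul, Quaternion.imJ_mul, Quaternion.imK_mul]
  linear_combination (x.re * y.re + x.imI * y.imI + x.imJ * y.imJ + x.imK * y.imK) * h

/-- coordinate vectors -/
noncomputable def E0 : H4 := WithLp.toLp 2 ![1, 0, 0, 0]
/-- coordinate vectors -/
noncomputable def E2 : H4 := WithLp.toLp 2 ![0, 0, 1, 0]

@[simp] lemma E0_0 : E0 0 = 1 := rfl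
@[simp] lemma E0_1 : E0 1 = 0 := rfl
@[simp] lemma E0_2 : E0 2 = 0 := rfl
@[simp] lemma E0_3 : E0 3 = 0 := rfl
@[simp] lemma E2_2 : E2 2 = 1 := rfl

lemma eq_one_of {g : SG} (hq : (g.1 : ℍ[ℝ]) = 1) (hre : (g.2 : ℂ).re = 1) (him : (g.2 : ℂ).im = 0) :
    g = 1 := by
  refine Prod.ext (Subtype.ext hq) (Circle.ext ?_)
  exact Complex.ext hre him

lemma preserves : Preserves HS SG where
  faithful := by
    intro g h
    have h2 := congrArg (fun y : H4 => y 2) (h E2)
    have h0 := congrArg (fun y : H4 => y 0) (h E0)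
    have h1 := congrArg (fun y : H4 => y 1) (h E0)
    simp only [smul_def, phi_apply, op_2, op_0, op_1, E2_2, E0_0, E0_1, mul_one, mul_zero,
      sub_zero, add_zero] at h2 h0 h1
    rw [h2] at h0 h1
    refine eq_one_of h2 ?_ ?_
    · have := congrArg QuaternionAlgebra.re h0
      simpa using this
    · have := congrArg QuaternionAlgebra.re h1
      simpa using this
  metric := by
    intro g u v
    rw [smul_def, smul_def, phi_apply]
    have hz := circle_sq g.2
    rw [inner_H4, inner_H4]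
    simp only [op_0, op_1, op_2, op_3, inner_mul_left', smul_mul_assoc]
    simp only [inner_sub_left, inner_sub_right, inner_add_left, inner_add_right,
      real_inner_smul_left, real_inner_smul_right, inner_mul_left']
    linear_combination (inner ℝ (u 0) (v 0) + inner ℝ (u 1) (v 1)) * hz
  complex := by
    intro g a v
    rw [smul_def, smul_def, phi_apply]
    refine ext4 ?_ ?_ ?_ ?_ <;> simp only [op_0, op_1, op_2, op_3, HS_J] <;> noncomm_ring

end Pool.Agent.K9h42.HK
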