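import Pool.Agent.K9h42.HK.Ex1

/-!
The Lie algebra of `Sp(1) × SO(2)`; compactness and connectedness.
-/

set_option autoImplicit false

open Set Filter Topology Quaternion

namespace Pool.Agent.K9h42.HK

lemma coord_deriv {f : ℝ → H4} {f' : H4} {t : ℝ} (h : HasDerivAt f f' t) (i : Fin 4) :
    HasDerivAt (fun s => f s i) (f' i) t := by
  have h1 := (PiLp.proj (𝕜 := ℝ) 2 (fun _ : Fin 4 => ℍ[ℝ]) i).hasFDerivAt.comp_hasDerivAt t h
  exact h1

lemma deriv_of_coord {f : ℝ → H4} {f' : H4} {t : ℝ}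
    (h : ∀ i, HasDerivAt (fun s => f s i) (f' i) t) : HasDerivAt f f' t := by
  have h1 : HasDerivAt (fun s => (WithLp.ofLp (f s) : Fin 4 → ℍ[ℝ])) (WithLp.ofLp f') t :=
    hasDerivAt_pi.2 h
  have h2 := (PiLp.continuousLinearEquiv 2 ℝ (fun _ : Fin 4 => ℍ[ℝ])).symm.toContinuousLinearMap.hasFDerivAt.comp_hasDerivAt t h1
  exact h2

/-- The elements `op p s p` with `p` imaginary and `s` real lie in the Lie algebra. -/
lemma mem_lie_of (p : ℍ[ℝ]) (hp : p.re = 0) (s : ℝ) :
    (op p (s : ℍ[ℝ]) p : H4 → H4) ∈ lieAlg H4 SG := by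
  have hn : ∀ t : ℝ, NormedSpace.exp (t • p) ∈ Metric.sphere (0 : ℍ[ℝ]) 1 := by
    intro t
    rw [mem_sphere_zero_iff_norm, Quaternion.norm_exp]
    simp [hp]
  have hq : HasDerivAt (fun t : ℝ => NormedSpace.exp (t • p)) p 0 := by
    have := hasDerivAt_exp_smul_const (𝕂 := ℝ) p (0 : ℝ)
    simpa using this
  have hre : HasDerivAt (fun t : ℝ => ((Circle.exp (t * s) : Circle) : ℂ).re) 0 0 := by
    have h1 : HasDerivAt (fun t : ℝ => Real.cos (t * s)) (-Real.sin (0 * s) * (1 * s)) 0 :=
      (((hasDerivAt_id (0 : ℝ)).mul_const s)).cos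
    have h2 : (fun t : ℝ => ((Circle.exp (t * s) : Circle) : ℂ).re) = fun t => Real.cos (t * s) := by
      funext t
      rw [Circle.coe_exp, Complex.exp_ofReal_mul_I_re]
    rw [h2]
    simpa using h1
  have him : HasDerivAt (fun t : ℝ => ((Circle.exp (t * s) : Circle) : ℂ).im) s 0 := by
    have h1 : HasDerivAt (fun t : ℝ => Real.sin (t * s)) (Real.cos (0 * s) * (1 * s)) 0 :=
      (((hasDerivAt_id (0 : ℝ)).mul_const s)).sin
    have h2 : (fun t : ℝ => ((Circle.exp (t * s) : Circle) : ℂ).im) = fun t => Real.sin (t * s) := by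
      funext t
      rw [Circle.coe_exp, Complex.exp_ofReal_mul_I_im]
    rw [h2]
    simpa using h1
  let γ : ℝ → SG := fun t => (⟨_, hn t⟩, Circle.exp (t * s))
  refine ⟨γ, ?_, fun v => ?_⟩
  · refine Prod.ext (Subtype.ext ?_) ?_
    · show NormedSpace.exp ((0 : ℝ) • p) = 1
      simp
    · show Circle.exp (0 * s) = 1
      simp
  · have hval : ∀ t, phi (γ t) = op (((Circle.exp (t * s) : Circle) : ℂ).re • NormedSpace.exp (t • p))
          (((Circle.exp (t * s) : Circle) : ℂ).im • NormedSpace.exp (t • p))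
          (NormedSpace.exp (t • p)) := fun t => rfl
    have ha := hre.smul hq
    have hb := him.smul hq
    simp only [zero_mul, zero_smul, Circle.exp_zero, Circle.coe_one, Complex.one_re, one_smul,
      add_zero, NormedSpace.exp_zero, Complex.one_im, zero_add] at ha hb
    have hs : s • (1 : ℍ[ℝ]) = (s : ℍ[ℝ]) := by
      ext <;> simp
    rw [hs] at hb
    refine deriv_of_coord fun i => ?_
    fin_cases i
    · exact (ha.mul_const (v 0)).sub (hb.mul_const (v 1))
    · exact (hb.mul_const (v 0)).add (ha.mul_const (v 1))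
    · exact hq.mul_const (v 2)
    · exact hq.mul_const (v 3)

/-- Every element of the Lie algebra is `op p s p` with `p` imaginary and `s` real. -/
lemma of_mem_lie {X : H4 → H4} (hX : X ∈ lieAlg H4 SG) :
    ∃ (p : ℍ[ℝ]) (s : ℝ), p.re = 0 ∧ X = op p (s : ℍ[ℝ]) p := by
  obtain ⟨γ, h2, h3⟩ := hX
  set q : ℝ → ℍ[ℝ] := fun s => ((γ s).1 : ℍ[ℝ]) with hqdef
  set c : ℝ → ℝ := fun s => ((γ s).2 : ℂ).re with hcdef
  set d : ℝ → ℝ := fun s => ((γ s).2 : ℂ).im with hddef
  have hval : ∀ s v, γ s • v = op (c s • q s) (d s • q s) (q s) v := fun s v => rfl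
  have hqn : ∀ s, inner ℝ (q s) (q s) = 1 := by
    intro s
    rw [real_inner_self_eq_norm_sq]
    have : ‖q s‖ = 1 := by simp [hqdef]
    rw [this]; norm_num
  have hcd : ∀ s, c s ^ 2 + d s ^ 2 = 1 := fun s => circle_sq _
  -- values at zero
  have hq0 : q 0 = 1 := by
    rw [hqdef]; simp only [h2]; rfl
  have hc0 : c 0 = 1 := by
    rw [hcdef]; simp only [h2]; rfl
  have hd0 : d 0 = 0 := by
    rw [hddef]; simp only [h2]; rfl
  -- derivatives
  set p : ℍ[ℝ] := X E2 2 with hp
  set a' : ℍ[ℝ] := X E0 0 with ha'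
  set b' : ℍ[ℝ] := X E0 1 with hb'
  have dq : HasDerivAt q p 0 := by
    have := coord_deriv (h3 E2) 2
    refine this.congr_of_eventuallyEq (Eventually.of_forall fun s => ?_)
    simp [hval s]
  have da : HasDerivAt (fun s => c s • q s) a' 0 := by
    have := coord_deriv (h3 E0) 0
    refine this.congr_of_eventuallyEq (Eventually.of_forall fun s => ?_)
    simp [hval s]
  have db : HasDerivAt (fun s => d s • q s) b' 0 := by
    have := coord_deriv (h3 E0) 1
    refine this.congr_of_eventuallyEq (Eventually.of_forall fun s => ?_)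
    simp [hval s]
  have hXop : X = op a' b' p := by
    funext v
    refine (h3 v).unique (deriv_of_coord fun i => ?_)
    simp only [hval]
    fin_cases i
    · exact (da.mul_const (v 0)).sub (db.mul_const (v 1))
    · exact (db.mul_const (v 0)).add (da.mul_const (v 1))
    · exact dq.mul_const (v 2)
    · exact dq.mul_const (v 3)
  have hpre : p.re = 0 := by
    have h5 : HasDerivAt (fun s => inner ℝ (q s) (q s)) _ 0 := dq.inner ℝ dq
    have h6 : (fun s => (inner ℝ (q s) (q s) : ℝ)) = fun _ => 1 := funext hqn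
    rw [h6] at h5
    have h7 := h5.unique (hasDerivAt_const (0 : ℝ) (1 : ℝ))
    rw [hq0, inner_H, inner_H] at h7
    simp at h7
    linarith
  have hc : HasDerivAt c a'.re 0 := by
    have h5 : HasDerivAt (fun s => inner ℝ (c s • q s) (q s)) _ 0 := da.inner ℝ dq
    have h6 : (fun s => (inner ℝ (c s • q s) (q s) : ℝ)) = c := by
      funext s
      rw [real_inner_smul_left, hqn, mul_one]
    rw [h6] at h5
    refine h5.congr_deriv ?_
    rw [hq0, hc0, inner_H, inner_H]
    simp [hpre]
  have hcz : a'.re = 0 := by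
    have hmax : IsLocalMax c 0 := by
      refine Filter.Eventually.of_forall fun s => ?_
      rw [hc0]
      nlinarith [hcd s, sq_nonneg (d s), sq_nonneg (c s - 1)]
    exact hmax.hasDerivAt_eq_zero hc
  have hd : HasDerivAt d b'.re 0 := by
    have h5 : HasDerivAt (fun s => inner ℝ (d s • q s) (q s)) _ 0 := db.inner ℝ dq
    have h6 : (fun s => (inner ℝ (d s • q s) (q s) : ℝ)) = d := by
      funext s
      rw [real_inner_smul_left, hqn, mul_one]
    rw [h6] at h5
    refine h5.congr_deriv ?_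
    rw [hq0, hd0, inner_H, inner_H]
    simp
  have hap : a' = p := by
    have h5 := hc.smul dq
    have h6 := da.unique h5
    rw [h6, hcz, hc0]
    simp
  have hbs : b' = ((b'.re : ℝ) : ℍ[ℝ]) := by
    have h5 := hd.smul dq
    have h6 := db.unique h5
    rw [hd0, hq0] at h6
    simp only [zero_smul, zero_add] at h6
    have h7 : b'.re • (1 : ℍ[ℝ]) = ((b'.re : ℝ) : ℍ[ℝ]) := by
      ext <;> simp
    rw [← h7]
    exact h6
  refine ⟨p, b'.re, hpre, ?_⟩
  rw [← hbs]
  nth_rewrite 1 [← hap]
  exact hXop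

/-- The action is continuous. -/
instance : ContinuousSMul SG H4 := by
  refine ⟨?_⟩
  have h0 : Continuous fun a : SG × H4 => (a.1.1 : ℍ[ℝ]) :=
    continuous_subtype_val.comp (continuous_fst.comp continuous_fst)
  have h2 : Continuous fun a : SG × H4 => ((a.1.2 : ℂ).re) :=
    Complex.continuous_re.comp (continuous_induced_dom.comp (continuous_snd.comp continuous_fst))
  have h3 : Continuous fun a : SG × H4 => ((a.1.2 : ℂ).im) :=
    Complex.continuous_im.comp (continuous_induced_dom.comp (continuous_snd.comp continuous_fst))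
  have hx : ∀ i, Continuous fun a : SG × H4 => a.2 i := fun i => by fun_prop
  have h4 : Continuous fun a : SG × H4 => (WithLp.ofLp (phi a.1 a.2) : Fin 4 → ℍ[ℝ]) := by
    refine continuous_pi fun i => ?_
    fin_cases i
    · exact ((h2.smul h0).mul (hx 0)).sub ((h3.smul h0).mul (hx 1))
    · exact ((h3.smul h0).mul (hx 0)).add ((h2.smul h0).mul (hx 1))
    · exact h0.mul (hx 2)
    · exact h0.mul (hx 3)
  exact (PiLp.continuous_toLp 2 _).comp h4

end Pool.Agent.K9h42.HK
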