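import Pool.Agent.Helper197.Ode

/-!
Negative gradient flow of a smooth function with compact sublevel sets.
-/

set_option autoImplicit false

open Set Filter Topology
open scoped Gradient

namespace Pool.Agent.K9h42.HK

variable {V : Type} [NormedAddCommGroup V] [InnerProductSpace ℝ V]

lemma hasFDerivAt_inner_gradient [CompleteSpace V] {f : V → ℝ} (hf : Differentiable ℝ f) (x v : V) :
    fderiv ℝ f x v = inner ℝ (∇ f x) v := by
  have h := (hf x).hasGradientAt.hasFDerivAt.fderiv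
  rw [h]
  rfl

/-- Along a solution of `γ' = - ∇f(γ)` on `[0, T]`, `f` does not increase. -/
lemma decreasing [CompleteSpace V] {f : V → ℝ} (hf : Differentiable ℝ f) {T : ℝ} {γ : ℝ → V}
    (h : ∀ t ∈ Icc 0 T, HasDerivWithinAt γ (-(∇ f (γ t))) (Icc 0 T) t) :
    ∀ t ∈ Icc 0 T, f (γ t) ≤ f (γ 0) := by
  intro t ht
  have hd : ∀ s ∈ Icc 0 T, HasDerivWithinAt (fun s => f (γ s)) (-(‖∇ f (γ s)‖ ^ 2)) (Icc 0 T) s := by
    intro s hs
    have h1 := (hf (γ s)).hasFDerivAt.comp_hasDerivWithinAt s (h s hs)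
    refine h1.congr_deriv ?_
    rw [hasFDerivAt_inner_gradient hf, inner_neg_right, real_inner_self_eq_norm_sq]
  have hanti : AntitoneOn (fun s => f (γ s)) (Icc 0 T) := by
    refine antitoneOn_of_deriv_nonpos (convex_Icc 0 T) (fun s hs => (hd s hs).continuousWithinAt)
      (fun s hs => ?_) (fun s hs => ?_)
    · rw [interior_Icc] at hs
      exact ((hd s (Ioo_subset_Icc_self hs)).hasDerivAt (Icc_mem_nhds hs.1 hs.2)).differentiableAt.differentiableWithinAt
    · rw [interior_Icc] at hs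
      rw [((hd s (Ioo_subset_Icc_self hs)).hasDerivAt (Icc_mem_nhds hs.1 hs.2)).deriv]
      nlinarith [sq_nonneg ‖∇ f (γ s)‖]
  exact hanti ⟨le_rfl, ht.1.trans ht.2⟩ ht ht.1

/-- Existence for all positive times. -/
theorem exists_forward [FiniteDimensional ℝ V] [CompleteSpace V] {f : V → ℝ} (hf : ContDiff ℝ 3 f)
    (hc : ∀ c : ℝ, IsCompact {x | f x ≤ c}) (x : V) :
    ∃ γ : ℝ → V, γ 0 = x ∧ ∀ t, 0 ≤ t → HasDerivAt γ (-(∇ f (γ t))) t := by
  obtain ⟨R, hR0, hR⟩ := (hc (f x)).isBounded.subset_closedBall_lt 0 0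
  let χ : ContDiffBump (0 : V) := ⟨R, R + 1, hR0, by linarith⟩
  have hdf : Differentiable ℝ f := hf.differentiable (by norm_num)
  have hg : ContDiff ℝ 2 (fun y => ∇ f y) := by
    have h1 : ContDiff ℝ 2 (fderiv ℝ f) := hf.fderiv_right (by norm_num)
    exact ((InnerProductSpace.toDual ℝ V).symm.contDiff).comp h1
  let v : V → V := fun y => -(χ y • ∇ f y)
  have hv : ContDiff ℝ 2 v := (χ.contDiff.smul hg).neg
  have hvc : HasCompactSupport v := by
    have : HasCompactSupport fun y => χ y • ∇ f y := χ.hasCompactSupport.smul_right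
    exact this.neg
  obtain ⟨φ, h0, hφ⟩ : ∃ φ : ℝ → V, φ 0 = x ∧ ∀ t, HasDerivAt φ (v (φ t)) t := by
    obtain ⟨Φ, hΦ0, hΦ, -⟩ := Pool.Agent.Helper197.SI.exists_global_flow v hv hvc
    exact ⟨fun s => Φ s x, hΦ0 x, hΦ x⟩
  refine ⟨φ, h0, fun t ht => ?_⟩
  have hmono : Antitone fun s => f (φ s) := by
    have hd : ∀ s, HasDerivAt (fun s => f (φ s)) (-(χ (φ s) * ‖∇ f (φ s)‖ ^ 2)) s := by
      intro s
      have h1 := (hdf (φ s)).hasFDerivAt.comp_hasDerivAt s (hφ s)
      refine h1.congr_deriv ?_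
      rw [hasFDerivAt_inner_gradient hdf]
      show inner ℝ (∇ f (φ s)) (-(χ (φ s) • ∇ f (φ s))) = _
      rw [inner_neg_right, real_inner_smul_right, real_inner_self_eq_norm_sq]
    refine antitone_of_deriv_nonpos (fun s => (hd s).differentiableAt) fun s => ?_
    rw [(hd s).deriv]
    have := χ.nonneg (x := φ s)
    nlinarith [mul_nonneg this (sq_nonneg ‖∇ f (φ s)‖)]
  have hle : f (φ t) ≤ f x := by
    have h1 : f (φ t) ≤ f (φ 0) := hmono ht
    rwa [h0] at h1
  have hmem : φ t ∈ Metric.closedBall (0 : V) R := hR hle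
  have h1 := hφ t
  have h2 : χ (φ t) = 1 := χ.one_of_mem_closedBall hmem
  have h3 : v (φ t) = -(∇ f (φ t)) := by
    show -(χ (φ t) • ∇ f (φ t)) = _
    rw [h2, one_smul]
  rwa [h3] at h1

end Pool.Agent.K9h42.HK
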