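import Pool.Agent.K9h42.HK.Defs

/-!
A criterion for the failure of surjectivity of the Kirwan map in degree zero.
-/

set_option autoImplicit false

open Set

namespace Pool.Agent.K9h42.HK

variable {V : Type} [NormedAddCommGroup V] [NormedSpace ℝ V]

lemma pos_iff_of_ne_zero {Y : Type} [TopologicalSpace Y] [PreconnectedSpace Y] (f : Y → ℝ)
    (hf : Continuous f) (hne : ∀ y, f y ≠ 0) (a b : Y) (ha : 0 < f a) : 0 < f b := by
  by_contra hb
  obtain ⟨y, hy⟩ := mem_range_of_exists_le_of_exists_ge hf ⟨b, not_lt.1 hb⟩ ⟨a, ha.le⟩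
  exact hne y hy

instance : PreconnectedSpace (stdSimplex ℝ (Fin 2)) :=
  isPreconnected_iff_preconnectedSpace.1 (isPathConnected_stdSimplex (Fin 2)).isConnected.isPreconnected

lemma map_succAbove (i : Fin 2) (s : stdSimplex ℝ (Fin 1)) :
    stdSimplex.map i.succAbove s = stdSimplex.vertex (S := ℝ) (i.succAbove 0) := by
  have : s = stdSimplex.vertex (S := ℝ) (0 : Fin 1) := Subsingleton.elim _ _
  rw [this, stdSimplex.map_vertex]

/-- If a continuous `G`-invariant function does not vanish on `S` and takes both signs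
there, then the Kirwan map is not surjective in degree zero. -/
theorem not_surjective_zero (G : Type) [SMul G V] (S : Set V) (N : V → ℝ) (hN : Continuous N)
    (hinv : ∀ (g : G) p, N (g • p) = N p)
    (hne : ∀ s ∈ S, N s ≠ 0) (x y : V) (hxS : x ∈ S)
    (hyS : y ∈ S) (hx : N x < 0) (hy : 0 < N y)
    (E : Type) [TopologicalSpace E] [SMul G E] [Nonempty E] :
    ¬ Function.Surjective (kirwan G E S 0) := by
  intro hsurj
  obtain ⟨e⟩ := (inferInstance : Nonempty E)
  let Nb : Borel G E S → ℝ := Quot.lift (fun p : E × S => N p.2) (by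
    rintro p q ⟨g, -, h2⟩
    show N p.2 = N q.2
    rw [h2]
    exact (hinv g p.2).symm)
  have hNb : Continuous Nb :=
    continuous_quot_lift _ (hN.comp (continuous_subtype_val.comp continuous_snd))
  have hNb0 : ∀ z, Nb z ≠ 0 := by
    intro z
    induction z using Quot.ind with
    | mk p => exact hne p.2 p.2.2
  let c : Simplex (Borel G E S) 0 → ℚ :=
    fun σ => if 0 < Nb ((show C(stdSimplex ℝ (Fin 1), Borel G E S) from σ) default) then 1 else 0
  have hc : IsCocycle c := by
    intro τ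
    let τ' : C(stdSimplex ℝ (Fin 2), Borel G E S) := τ
    have key : c (face (0 : Fin 2) τ) = c (face (1 : Fin 2) τ) := by
      have hcont : Continuous fun t => Nb (τ' t) := hNb.comp τ'.continuous
      have hiff : ∀ a b : stdSimplex ℝ (Fin 2), 0 < Nb (τ' a) → 0 < Nb (τ' b) := fun a b =>
        pos_iff_of_ne_zero (fun t => Nb (τ' t)) hcont (fun t => hNb0 _) a b
      by_cases h : 0 < Nb (τ' (stdSimplex.map (Fin.succAbove (0 : Fin 2)) default))
      · exact (if_pos h).trans (if_pos (hiff _ _ h)).symm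
      · exact (if_neg h).trans (if_neg fun h' => h (hiff _ _ h')).symm
    show ∑ i : Fin (0 + 2), (-1 : ℚ) ^ (i : ℕ) * c (face i τ) = 0
    rw [Fin.sum_univ_two]
    simp only [Fin.val_zero, pow_zero, one_mul, Fin.val_one, pow_one]
    rw [key]
    ring
  obtain ⟨w, hw⟩ := hsurj (Quot.mk _ ⟨c, hc⟩)
  obtain ⟨h, rfl⟩ := Quot.exists_rep w
  have h3 : (Quot.mk _ ⟨fun σ => h.1 (ContinuousMap.comp (borelIncl G E S) σ),
      pull_cocycle (borelIncl G E S) h.2⟩ : Coh (Borel G E S) 0) = Quot.mk _ ⟨c, hc⟩ := hw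
  have h5 : ∀ σ : Simplex (Borel G E S) 0, h.1 (ContinuousMap.comp (borelIncl G E S) σ) = c σ := by
    let ev : Coh (Borel G E S) 0 → (Simplex (Borel G E S) 0 → ℚ) :=
      Quot.lift (fun c => c.1) fun _ _ h => h
    intro σ
    exact congrFun (congrArg ev h3) σ
  let pt : (s : V) → s ∈ S → Simplex (Borel G E S) 0 := fun s hs =>
    ContinuousMap.const _ (Quot.mk _ (e, ⟨s, hs⟩))
  let γ : ℝ → V := fun t => x + t • (y - x)
  have hγ : Continuous γ := by fun_prop
  have h0 : γ 0 = x := by simp [γ]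
  have h1 : γ 1 = y := by simp [γ]
  let τ : C(stdSimplex ℝ (Fin 2), Borel G E (Set.univ : Set V)) :=
    ⟨fun t => Quot.mk _ (e, ⟨γ (t 1), trivial⟩), by
      refine continuous_quot_mk.comp (continuous_const.prodMk
        ((hγ.comp ?_).subtype_mk _))
      exact (continuous_apply 1).comp continuous_subtype_val⟩
  have hτ := h.2 (show Simplex (Borel G E (Set.univ : Set V)) (0 + 1) from τ)
  have hτ' : ∑ i : Fin (0 + 2), (-1 : ℚ) ^ (i : ℕ) * h.1 (face i
    (show Simplex (Borel G E (Set.univ : Set V)) (0 + 1) from τ)) = 0 := hτ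
  rw [Fin.sum_univ_two] at hτ'
  have f0 : face (0 : Fin 2) (show Simplex (Borel G E (Set.univ : Set V)) (0 + 1) from τ)
      = ContinuousMap.comp (borelIncl G E S) (pt y hyS) := by
    apply ContinuousMap.ext
    intro s
    show (Quot.mk _ (e, ⟨γ ((stdSimplex.map (Fin.succAbove (0 : Fin 2)) s) 1), trivial⟩) :
      Borel G E (Set.univ : Set V)) = Quot.mk _ (e, ⟨y, trivial⟩)
    have : (stdSimplex.map (Fin.succAbove (0 : Fin 2)) s) 1 = (1 : ℝ) := by
      rw [map_succAbove]
      simp
    rw [this]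
    congr 3
  have f1 : face (1 : Fin 2) (show Simplex (Borel G E (Set.univ : Set V)) (0 + 1) from τ)
      = ContinuousMap.comp (borelIncl G E S) (pt x hxS) := by
    apply ContinuousMap.ext
    intro s
    show (Quot.mk _ (e, ⟨γ ((stdSimplex.map (Fin.succAbove (1 : Fin 2)) s) 1), trivial⟩) :
      Borel G E (Set.univ : Set V)) = Quot.mk _ (e, ⟨x, trivial⟩)
    have : (stdSimplex.map (Fin.succAbove (1 : Fin 2)) s) 1 = (0 : ℝ) := by
      rw [map_succAbove]
      simp
    rw [this]
    congr 3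
  rw [f0, f1, h5, h5] at hτ'
  have cy : c (pt y hyS) = 1 := if_pos hy
  have cx : c (pt x hxS) = 0 := if_neg (not_lt.2 hx.le)
  rw [cy, cx] at hτ'
  simp at hτ'

end Pool.Agent.K9h42.HK
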