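import Pool.Agent.K9h42.HK.Ex2
import Pool.Agent.K9h42.HK.Flow
import Pool.Agent.K9h42.HK.Top
import Pool.Agent.R780.Kirwan

/-!
The moment map, its zero level, properness of the norm-square.
-/

set_option autoImplicit false

open Set Filter Topology Quaternion

namespace Pool.Agent.K9h42.HK

/-- The central part of the moment map: the functional `X ↦ Re (X e₀)₁` for `a = 0`, and zero for
`a = 1, 2`. On `op p s p` it takes the value `s`. -/
noncomputable def shift (a : Fin 3) (X : H4 → H4) : ℝ := if a = 0 then (X E0 1).re else 0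

/-- The hyperkähler moment map `μ_a(x)(X) = ½ ⟪J_a X x, x⟫ + shift_a(X)`. -/
noncomputable def mu (a : Fin 3) (x : H4) (X : H4 → H4) : ℝ :=
  2⁻¹ * inner ℝ (HS.J a (X x)) x + shift a X

lemma mu_apply (a : Fin 3) (x : H4) (X : H4 → H4) :
    mu a x X = 2⁻¹ * inner ℝ (HS.J a (X x)) x + shift a X := rfl

lemma shift_op (a : Fin 3) (p : ℍ[ℝ]) (b : ℍ[ℝ]) (r : ℍ[ℝ]) :
    shift a (op p b r) = if a = 0 then b.re else 0 := by
  unfold shift
  split_ifs with h
  · show (op p b r E0 1).re = b.re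
    simp
  · rfl

lemma mu_add (a : Fin 3) (x : H4) (X Y : H4 → H4) : mu a x (X + Y) = mu a x X + mu a x Y := by
  rw [mu_apply, mu_apply, mu_apply, Pi.add_apply, map_add, inner_add_left]
  unfold shift
  split_ifs
  · rw [Pi.add_apply, PiLp.add_apply, Quaternion.re_add]; ring
  · ring

lemma mu_smul (a : Fin 3) (x : H4) (r : ℝ) (X : H4 → H4) : mu a x (r • X) = r * mu a x X := by
  rw [mu_apply, mu_apply, Pi.smul_apply, map_smul, real_inner_smul_left]
  unfold shift
  split_ifs
  · rw [Pi.smul_apply, PiLp.smul_apply, Quaternion.re_smul, smul_eq_mul]; ring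
  · ring

lemma isMomentMap : IsMomentMap HS SG mu where
  add a x X _ Y _ := mu_add a x X Y
  smul a x X _ r := mu_smul a x r X
  grad := by
    intro a x X hX
    obtain ⟨p, s, hp, rfl⟩ := of_mem_lie hX
    exact quad_grad preserves hX a (shift a (op p (s : ℍ[ℝ]) p)) x
  equivariant := by
    intro a x X hX g
    rw [mu_apply, mu_apply]
    have h0 := quad_equiv preserves X a g x
    rw [h0]
    congr 1
    obtain ⟨p, s, hp, rfl⟩ := of_mem_lie hX
    have hfun : (fun v => g • (op p (s : ℍ[ℝ]) p) (g⁻¹ • v)) =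
        ((phi g * op p (s : ℍ[ℝ]) p * phi g⁻¹ : H4 →L[ℝ] H4) : H4 → H4) := rfl
    rw [hfun]
    obtain ⟨q, z⟩ := g
    have hinv : ((q, z)⁻¹ : SG) = (q⁻¹, z⁻¹) := rfl
    rw [hinv, phi_apply, phi_apply, op_mul, op_mul, shift_op, shift_op]
    have hz := circle_sq z
    have hq := sphere_sq q
    have hqi : ((q⁻¹ : Metric.sphere (0 : ℍ[ℝ]) 1) : ℍ[ℝ]) = star (q : ℍ[ℝ]) := by
      rw [Metric.unitSphere.coe_inv]
      refine inv_eq_of_mul_eq_one_right ?_
      rw [Quaternion.self_mul_star, Quaternion.normSq_def', hq]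
      rfl
    congr 1
    simp only [Circle.coe_inv_eq_conj, Complex.conj_re,
      Complex.conj_im, hqi]
    simp only [Quaternion.re_add, Quaternion.re_sub, Quaternion.re_mul, Quaternion.imI_mul,
      Quaternion.imJ_mul, Quaternion.imK_mul, Quaternion.imI_add, Quaternion.imJ_add,
      Quaternion.imK_add, Quaternion.imI_sub, Quaternion.imJ_sub, Quaternion.imK_sub,
      Quaternion.re_smul, Quaternion.imI_smul, Quaternion.imJ_smul, Quaternion.imK_smul,
      Quaternion.re_star, Quaternion.imI_star, Quaternion.imJ_star, Quaternion.imK_star,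
      Quaternion.re_coe, Quaternion.imI_coe, Quaternion.imJ_coe, Quaternion.imK_coe, hp,
      smul_eq_mul]
    linear_combination (s * ((q : ℍ[ℝ]).re ^ 2 + (q : ℍ[ℝ]).imI ^ 2 +
      (q : ℍ[ℝ]).imJ ^ 2 + (q : ℍ[ℝ]).imK ^ 2)) * hz + s * hq

/-! ### The Lie algebra as a vector space -/

/-- A basis of the Lie algebra, as operators. -/
noncomputable def eB' : Fin 4 → (H4 →L[ℝ] H4) :=
  ![op (unitQ 0) 0 (unitQ 0), op (unitQ 1) 0 (unitQ 1), op (unitQ 2) 0 (unitQ 2), op 0 1 0]

/-- A basis of the Lie algebra. -/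
noncomputable def eB : Fin 4 → H4 → H4 := fun i => eB' i

lemma op_add (a b p a' b' p' : ℍ[ℝ]) : op a b p + op a' b' p' = op (a + a') (b + b') (p + p') := by
  ext x : 1
  refine ext4 ?_ ?_ ?_ ?_ <;>
    simp only [ContinuousLinearMap.add_apply, PiLp.add_apply, op_0, op_1, op_2, op_3] <;>
    noncomm_ring

lemma op_smul (c : ℝ) (a b p : ℍ[ℝ]) : c • op a b p = op (c • a) (c • b) (c • p) := by
  ext x : 1
  refine ext4 ?_ ?_ ?_ ?_ <;>
    simp only [ContinuousLinearMap.smul_apply, PiLp.smul_apply, op_0, op_1, op_2, op_3,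
      smul_mul_assoc, smul_sub, smul_add]

lemma eB_comb' (c : Fin 4 → ℝ) : ∑ i, c i • eB' i =
    op ⟨0, c 0, c 1, c 2⟩ ((c 3 : ℝ) : ℍ[ℝ]) ⟨0, c 0, c 1, c 2⟩ := by
  rw [Fin.sum_univ_four]
  simp only [eB', Matrix.cons_val_zero, Matrix.cons_val_one, Matrix.cons_val, op_smul, op_add]
  congr 1 <;> ext <;> simp [unitQ]

lemma eB_comb (c : Fin 4 → ℝ) : ∑ i, c i • eB i =
    ((op ⟨0, c 0, c 1, c 2⟩ ((c 3 : ℝ) : ℍ[ℝ]) ⟨0, c 0, c 1, c 2⟩ : H4 →L[ℝ] H4) : H4 → H4) := by
  rw [← eB_comb']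
  funext x
  rw [Finset.sum_apply, ContinuousLinearMap.sum_apply]
  rfl

lemma eB_basis : IsLieBasis SG eB := by
  constructor
  · intro c hc
    rw [eB_comb] at hc
    have h1 := congrArg (fun T : H4 → H4 => T E0 0) hc
    have h2 := congrArg (fun T : H4 → H4 => T E0 1) hc
    simp only [op_0, op_1, E0_0, E0_1, mul_one, mul_zero, sub_zero, add_zero,
      Pi.zero_apply, PiLp.zero_apply] at h1 h2
    have i1 := congrArg QuaternionAlgebra.imI h1
    have i2 := congrArg QuaternionAlgebra.imJ h1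
    have i3 := congrArg QuaternionAlgebra.imK h1
    have i4 := congrArg QuaternionAlgebra.re h2
    funext i
    fin_cases i
    · simpa using i1
    · simpa using i2
    · simpa using i3
    · simpa using i4
  · intro X
    constructor
    · intro hX
      obtain ⟨p, s, hp, rfl⟩ := of_mem_lie hX
      refine ⟨![p.imI, p.imJ, p.imK, s], ?_⟩
      rw [eB_comb]
      congr 2 <;> ext <;> simp [hp]
    · rintro ⟨c, rfl⟩
      rw [eB_comb]
      exact mem_lie_of _ rfl _

end Pool.Agent.K9h42.HK
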