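import Pool.Agent.K9h42.HK.Ex3

/-!
The zero level of the moment map and the zero level of its quadratic part.
-/

set_option autoImplicit false

open Set Filter Topology Quaternion
open Pool.Agent.R780.Kirwan (coordM leftM coordM_mul det_leftM cI cJ cK)

namespace Pool.Agent.K9h42.HK

/-- The imaginary components of a quaternion. -/
noncomputable def comp (a : Fin 3) (q : ℍ[ℝ]) : ℝ := ![q.imI, q.imJ, q.imK] a

lemma comp_add (a : Fin 3) (q r : ℍ[ℝ]) : comp a (q + r) = comp a q + comp a r := by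
  fin_cases a <;> simp [comp]

lemma inner_mulJ (a : Fin 3) (y x : ℍ[ℝ]) :
    inner ℝ (y * (-(unitQ a))) x = comp a (star x * y) := by
  rw [inner_H]
  fin_cases a <;> simp [comp, unitQ] <;> ring

/-- The quadratic form of `p` in the moment map of the left action of `Sp(1)`. -/
noncomputable def PP (a : Fin 3) (p : ℍ[ℝ]) (x : H4) : ℝ :=
  comp a (star (x 0) * (p * x 0)) + comp a (star (x 1) * (p * x 1)) +
    comp a (star (x 2) * (p * x 2)) + comp a (star (x 3) * (p * x 3))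

lemma inner_op (a : Fin 3) (p : ℍ[ℝ]) (s : ℝ) (x : H4) :
    inner ℝ (HS.J a (op p (s : ℍ[ℝ]) p x)) x = PP a p x - 2 * s * comp a (star (x 0) * x 1) := by
  rw [inner_H4]
  simp only [HS_J, op_0, op_1, op_2, op_3]
  rw [inner_mulJ, inner_mulJ, inner_mulJ, inner_mulJ, PP]
  fin_cases a <;> simp [comp] <;> ring

lemma mu_op (a : Fin 3) (p : ℍ[ℝ]) (s : ℝ) (x : H4) :
    mu a x (op p (s : ℍ[ℝ]) p) =
      2⁻¹ * PP a p x - s * comp a (star (x 0) * x 1) + if a = 0 then s else 0 := by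
  rw [mu_apply, inner_op, shift_op]
  simp only [Quaternion.re_coe]
  ring

/-- `|x|²` -/
noncomputable def sq4 (x : H4) : ℝ := inner ℝ x x

lemma sq4_eq (x : H4) : sq4 x = (x 0).re ^ 2 + (x 0).imI ^ 2 + (x 0).imJ ^ 2 + (x 0).imK ^ 2 +
    ((x 1).re ^ 2 + (x 1).imI ^ 2 + (x 1).imJ ^ 2 + (x 1).imK ^ 2) +
    ((x 2).re ^ 2 + (x 2).imI ^ 2 + (x 2).imJ ^ 2 + (x 2).imK ^ 2) +
    ((x 3).re ^ 2 + (x 3).imI ^ 2 + (x 3).imJ ^ 2 + (x 3).imK ^ 2) := by
  rw [sq4, inner_H4, inner_H, inner_H, inner_H, inner_H]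
  ring

lemma coordM_orth' (x : H4) (h : ∀ a p, p.re = 0 → PP a p x = 0) :
    coordM (WithLp.ofLp x) * (coordM (WithLp.ofLp x)).transpose =
      (sq4 x / 4) • (1 : Matrix (Fin 4) (Fin 4) ℝ) := by
  have i1 := h 0 ⟨0, 1, 0, 0⟩ rfl
  have i2 := h 1 ⟨0, 1, 0, 0⟩ rfl
  have i3 := h 2 ⟨0, 1, 0, 0⟩ rfl
  have j1 := h 0 ⟨0, 0, 1, 0⟩ rfl
  have j2 := h 1 ⟨0, 0, 1, 0⟩ rfl
  have j3 := h 2 ⟨0, 0, 1, 0⟩ rfl
  have k1 := h 0 ⟨0, 0, 0, 1⟩ rfl
  have k2 := h 1 ⟨0, 0, 0, 1⟩ rfl
  have k3 := h 2 ⟨0, 0, 0, 1⟩ rfl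
  clear h
  simp only [PP, comp, Matrix.cons_val_zero, Matrix.cons_val_one, Matrix.cons_val] at i1 i2 i3 j1 j2 j3 k1 k2 k3
  rw [cI _ _ rfl, cI _ _ rfl, cI _ _ rfl, cI _ _ rfl] at i1 j1 k1
  rw [cJ _ _ rfl, cJ _ _ rfl, cJ _ _ rfl, cJ _ _ rfl] at i2 j2 k2
  rw [cK _ _ rfl, cK _ _ rfl, cK _ _ rfl, cK _ _ rfl] at i3 j3 k3
  have hs := sq4_eq x
  simp only [one_mul, mul_zero, zero_mul, add_zero, zero_add, mul_one] at i1 i2 i3 j1 j2 j3 k1 k2 k3
  ext c d
  rw [Matrix.smul_apply, smul_eq_mul]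
  fin_cases c <;> fin_cases d <;>
    simp [coordM, Matrix.mul_apply, Fin.sum_univ_four] <;> linarith

lemma coord_entry (x : H4) (i j : Fin 4) :
    ((coordM (WithLp.ofLp x)).transpose * coordM (WithLp.ofLp x)) i j = inner ℝ (x i) (x j) := by
  rw [inner_H]
  simp [coordM, Matrix.mul_apply, Fin.sum_univ_four]

lemma gram (x : H4) (h : ∀ a p, p.re = 0 → PP a p x = 0) (hx : sq4 x ≠ 0) (i j : Fin 4) :
    (inner ℝ (x i) (x j) : ℝ) = if i = j then sq4 x / 4 else 0 := by
  have h1 := coordM_orth' x h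
  have h2 : coordM (WithLp.ofLp x) * ((4 / sq4 x) • (coordM (WithLp.ofLp x)).transpose) = 1 := by
    rw [Matrix.mul_smul, h1, smul_smul]
    have : 4 / sq4 x * (sq4 x / 4) = 1 := by field_simp
    rw [this, one_smul]
  have h3 := mul_eq_one_comm.1 h2
  rw [Matrix.smul_mul] at h3
  have h4 := congrFun (congrFun h3 i) j
  rw [Matrix.smul_apply, smul_eq_mul, coord_entry, Matrix.one_apply] at h4
  have h5 : (inner ℝ (x i) (x j) : ℝ) = (sq4 x / 4) * (4 / sq4 x * inner ℝ (x i) (x j)) := by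
    field_simp
  rw [h5, h4]
  split_ifs <;> ring

lemma det_ne (x : H4) (h : ∀ a p, p.re = 0 → PP a p x = 0) (hx : sq4 x ≠ 0) :
    (coordM (WithLp.ofLp x)).det ≠ 0 := by
  intro h0
  have h1 := congrArg Matrix.det (coordM_orth' x h)
  rw [Matrix.det_mul, h0, zero_mul, Matrix.det_smul, Matrix.det_one, Fintype.card_fin, mul_one] at h1
  have : sq4 x / 4 ≠ 0 := by
    intro h2
    apply hx
    linarith
  exact (pow_ne_zero 4 this) h1.symm

lemma sq4_eq_zero {x : H4} (h : sq4 x = 0) : x = 0 := inner_self_eq_zero.1 h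

/-! ### The zero level -/

lemma level_PP {x : H4} (hx : x ∈ zeroLevel SG mu) (a : Fin 3) (p : ℍ[ℝ]) (hp : p.re = 0) :
    PP a p x = 0 := by
  have h := hx a _ (mem_lie_of p hp 0)
  rw [mu_op] at h
  simp only [zero_mul, sub_zero, ite_self, add_zero] at h
  linarith

lemma level_m {x : H4} (hx : x ∈ zeroLevel SG mu) (a : Fin 3) :
    comp a (star (x 0) * x 1) = if a = 0 then 1 else 0 := by
  have h := hx a _ (mem_lie_of 0 rfl 1)
  rw [mu_op] at h
  have h0 : PP a 0 x = 0 := level_PP hx a 0 rfl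
  rw [h0] at h
  split_ifs at h ⊢ <;> linarith

lemma level_sq {x : H4} (hx : x ∈ zeroLevel SG mu) : sq4 x ≠ 0 := by
  intro h
  have h1 := sq4_eq_zero h
  have h2 := level_m hx 0
  rw [h1] at h2
  simp [comp] at h2

lemma level_det {x : H4} (hx : x ∈ zeroLevel SG mu) : (coordM (WithLp.ofLp x)).det ≠ 0 :=
  det_ne x (level_PP hx) (level_sq hx)

/-- The group acts freely on the zero level. -/
lemma level_free {x : H4} (hx : x ∈ zeroLevel SG mu) {g : SG} (h : g • x = x) : g = 1 := by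
  obtain ⟨q, z⟩ := g
  have hgr := gram x (level_PP hx) (level_sq hx)
  have h2 := congrArg (fun y : H4 => y 2) h
  have h0 := congrArg (fun y : H4 => y 0) h
  simp only [smul_def, phi_apply, op_2, op_0] at h2 h0
  have hx2 : x 2 ≠ 0 := by
    intro h3
    have := hgr 2 2
    rw [h3, inner_zero_left, if_pos rfl] at this
    exact level_sq hx (by linarith)
  have hq : (q : ℍ[ℝ]) = 1 := mul_right_cancel₀ hx2 (by rw [h2, one_mul])
  rw [hq] at h0
  simp only [smul_mul_assoc, one_mul] at h0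
  have h3 := congrArg (fun y => (inner ℝ y (x 0) : ℝ)) h0
  simp only [inner_sub_left, real_inner_smul_left] at h3
  rw [hgr 0 0, hgr 1 0, if_pos rfl, if_neg (by decide)] at h3
  have hs : sq4 x / 4 ≠ 0 := fun h4 => level_sq hx (by linarith)
  have hre : (z : ℂ).re = 1 := by
    apply mul_right_cancel₀ hs
    linarith
  have him : (z : ℂ).im = 0 := by
    have := circle_sq z
    rw [hre] at this
    nlinarith
  exact eq_one_of hq hre him

/-- The zero level of the quadratic part of the moment map is the origin. -/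
lemma quad_zero {x : H4} (h : ∀ a, ∀ X ∈ lieAlg H4 SG, inner ℝ (HS.J a (X x)) x = (0 : ℝ)) : x = 0 := by
  have hP : ∀ a p, p.re = 0 → PP a p x = 0 := by
    intro a p hp
    have h1 := h a _ (mem_lie_of p hp 0)
    rw [inner_op] at h1
    linarith
  have hm : ∀ a, comp a (star (x 0) * x 1) = 0 := by
    intro a
    have h1 := h a _ (mem_lie_of 0 rfl 1)
    rw [inner_op, hP a 0 rfl] at h1
    linarith
  by_contra hx
  have hs : sq4 x ≠ 0 := fun h0 => hx (sq4_eq_zero h0)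
  have hgr := gram x hP hs
  have hre : (star (x 0) * x 1).re = 0 := by
    have h1 := hgr 0 1
    rw [if_neg (by decide), inner_H] at h1
    simp only [Quaternion.re_mul, Quaternion.re_star, Quaternion.imI_star, Quaternion.imJ_star,
      Quaternion.imK_star]
    linarith
  have hz : star (x 0) * x 1 = 0 := by
    ext
    · exact hre
    · exact hm 0
    · exact hm 1
    · exact hm 2
  rcases mul_eq_zero.1 hz with h1 | h1
  · have h2 := hgr 0 0
    rw [star_eq_zero.1 h1, inner_zero_left, if_pos rfl] at h2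
    exact hs (by linarith)
  · have h2 := hgr 1 1
    rw [h1, inner_zero_left, if_pos rfl] at h2
    exact hs (by linarith)

/-! ### The two sheets -/

/-- The determinant of the real `4 × 4` matrix of coordinates. -/
noncomputable def NN (x : H4) : ℝ := (coordM (WithLp.ofLp x)).det

lemma NN_continuous : Continuous NN := by
  refine Continuous.matrix_det ?_
  have hc : ∀ i, Continuous fun x : H4 => x i := fun i => by fun_prop
  refine continuous_pi fun c => continuous_pi fun a => ?_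
  fin_cases c
  · exact Quaternion.continuous_re.comp (hc a)
  · exact Quaternion.continuous_imI.comp (hc a)
  · exact Quaternion.continuous_imJ.comp (hc a)
  · exact Quaternion.continuous_imK.comp (hc a)

lemma NN_invariant (g : SG) (x : H4) : NN (g • x) = NN x := by
  obtain ⟨q, z⟩ := g
  rw [smul_def]
  set c := (z : ℂ).re with hc
  set d := (z : ℂ).im with hd
  have hz : c ^ 2 + d ^ 2 = 1 := circle_sq z
  let y : Fin 4 → ℍ[ℝ] := ![c • x 0 - d • x 1, d • x 0 + c • x 1, x 2, x 3]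
  have h2 : (WithLp.ofLp (phi (q, z) x) : Fin 4 → ℍ[ℝ]) = fun i => (q : ℍ[ℝ]) * y i := by
    funext i
    fin_cases i
    · show phi (q, z) x 0 = (q : ℍ[ℝ]) * (c • x 0 - d • x 1)
      rw [phi_apply, op_0, mul_sub, mul_smul_comm, mul_smul_comm, smul_mul_assoc, smul_mul_assoc]
    · show phi (q, z) x 1 = (q : ℍ[ℝ]) * (d • x 0 + c • x 1)
      rw [phi_apply, op_1, mul_add, mul_smul_comm, mul_smul_comm, smul_mul_assoc, smul_mul_assoc]
    · rfl
    · rfl
  have h3 : coordM y = coordM (WithLp.ofLp x) * !![c, d, 0, 0; -d, c, 0, 0; 0, 0, 1, 0; 0, 0, 0, 1] := by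
    ext i j
    fin_cases i <;> fin_cases j <;>
      simp [coordM, y, Matrix.mul_apply, Fin.sum_univ_four] <;> ring
  have h4 : (!![c, d, 0, 0; -d, c, 0, 0; 0, 0, 1, 0; 0, 0, 0, 1] : Matrix (Fin 4) (Fin 4) ℝ).det = 1 := by
    simp [Matrix.det_succ_row_zero, Fin.sum_univ_succ, Fin.succAbove]
    nlinarith
  rw [NN, NN, h2, coordM_mul, h3, Matrix.det_mul, Matrix.det_mul, h4, det_leftM, sphere_sq q]
  ring

/-- The points `(1, i, j, ε k)`. -/
noncomputable def pt (ε : ℝ) : H4 :=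
  WithLp.toLp 2 ![1, ⟨0, 1, 0, 0⟩, ⟨0, 0, 1, 0⟩, ⟨0, 0, 0, ε⟩]

lemma pt_level (ε : ℝ) (hε : ε ^ 2 = 1) : pt ε ∈ zeroLevel SG mu := by
  intro a X hX
  obtain ⟨p, s, hp, rfl⟩ := of_mem_lie hX
  rw [mu_op, PP]
  fin_cases a
  · simp only [comp, Fin.zero_eta, Matrix.cons_val_zero]
    rw [cI _ _ hp, cI _ _ hp, cI _ _ hp, cI _ _ hp]
    simp [pt]
    linear_combination (-p.imI) * hε
  · simp only [comp, Fin.mk_one, Matrix.cons_val_one, Matrix.cons_val_zero]
    rw [cJ _ _ hp, cJ _ _ hp, cJ _ _ hp, cJ _ _ hp]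
    simp [pt]
    linear_combination (-p.imJ) * hε
  · simp only [comp, Fin.reduceFinMk, Matrix.cons_val]
    rw [cK _ _ hp, cK _ _ hp, cK _ _ hp, cK _ _ hp]
    simp [pt]
    linear_combination (p.imK) * hε

lemma NN_pt (ε : ℝ) : NN (pt ε) = ε := by
  have : coordM (WithLp.ofLp (pt ε)) = Matrix.diagonal ![1, 1, 1, ε] := by
    ext c a
    fin_cases c <;> fin_cases a <;> simp [coordM, pt]
  rw [NN, this, Matrix.det_diagonal, Fin.prod_univ_four]
  simp

end Pool.Agent.K9h42.HK
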