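import Pool.Agent.K9h42.HK.Ex4

/-!
Properness of the norm-square of the moment map.
-/

set_option autoImplicit false

open Set Filter Topology Quaternion
open scoped Gradient

namespace Pool.Agent.K9h42.HK

/-- The quadratic part of the norm-square: a quartic form. -/
noncomputable def quartic {n : ℕ} (e : Fin n → H4 → H4) (x : H4) : ℝ :=
  ∑ a, ∑ i, (2⁻¹ * inner ℝ (HS.J a (e i x)) x) ^ 2

lemma exists_op {n : ℕ} {e : Fin n → H4 → H4} (he : IsLieBasis SG e) (i : Fin n) :
    e i ∈ lieAlg H4 SG ∧ ∃ T : H4 →L[ℝ] H4, e i = T := by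
  have h1 : e i ∈ lieAlg H4 SG := by
    rw [he.2]
    refine ⟨fun j => if j = i then 1 else 0, ?_⟩
    simp
  obtain ⟨p, s, -, h⟩ := of_mem_lie h1
  exact ⟨h1, _, h⟩

lemma e_contDiff {n : ℕ} {e : Fin n → H4 → H4} (he : IsLieBasis SG e) (a : Fin 3) (i : Fin n) :
    ContDiff ℝ 3 fun x => HS.J a (e i x) := by
  obtain ⟨-, T, hT⟩ := exists_op he i
  rw [hT]
  exact ((LinearMap.toContinuousLinearMap (HS.J a)).comp T).contDiff

lemma quartic_continuous {n : ℕ} {e : Fin n → H4 → H4} (he : IsLieBasis SG e) :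
    Continuous (quartic e) := by
  unfold quartic
  refine continuous_finset_sum _ fun a _ => continuous_finset_sum _ fun i _ => ?_
  exact (continuous_const.mul ((e_contDiff he a i).continuous.inner continuous_id)).pow 2

lemma quartic_smul {n : ℕ} {e : Fin n → H4 → H4} (he : IsLieBasis SG e) (t : ℝ) (x : H4) :
    quartic e (t • x) = t ^ 4 * quartic e x := by
  unfold quartic
  rw [Finset.mul_sum]
  refine Finset.sum_congr rfl fun a _ => ?_
  rw [Finset.mul_sum]
  refine Finset.sum_congr rfl fun i _ => ?_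
  obtain ⟨-, T, hT⟩ := exists_op he i
  rw [hT, map_smul, map_smul, real_inner_smul_left, real_inner_smul_right]
  ring

lemma quartic_pos {n : ℕ} {e : Fin n → H4 → H4} (he : IsLieBasis SG e) {x : H4}
    (hx : x ≠ 0) : 0 < quartic e x := by
  have h0 : 0 ≤ quartic e x := Finset.sum_nonneg fun a _ => Finset.sum_nonneg fun i _ => sq_nonneg _
  refine lt_of_le_of_ne h0 fun h => hx ?_
  have h1 : ∀ a i, inner ℝ (HS.J a (e i x)) x = (0 : ℝ) := by
    intro a i
    have h2 := (Finset.sum_eq_zero_iff_of_nonneg (fun a _ => Finset.sum_nonneg fun i _ =>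
      sq_nonneg (2⁻¹ * (inner ℝ (HS.J a (e i x)) x : ℝ)))).1 h.symm a (Finset.mem_univ a)
    have h3 := (Finset.sum_eq_zero_iff_of_nonneg (fun i _ =>
      sq_nonneg (2⁻¹ * (inner ℝ (HS.J a (e i x)) x : ℝ)))).1 h2 i (Finset.mem_univ i)
    have h4 := pow_eq_zero_iff (two_ne_zero) |>.1 h3
    linarith
  apply quad_zero
  intro a X hX
  rw [he.2] at hX
  obtain ⟨c, rfl⟩ := hX
  rw [Finset.sum_apply, map_sum, sum_inner]
  refine Finset.sum_eq_zero fun i _ => ?_
  rw [Pi.smul_apply, map_smul, real_inner_smul_left, h1, mul_zero]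

lemma quartic_bound {n : ℕ} {e : Fin n → H4 → H4} (he : IsLieBasis SG e) :
    ∃ δ : ℝ, 0 < δ ∧ ∀ x : H4, δ * ‖x‖ ^ 4 ≤ quartic e x := by
  have hE : ‖E0‖ = 1 := by
    have : (inner ℝ E0 E0 : ℝ) = 1 := by
      rw [inner_H4]
      simp [inner_H]
    rw [real_inner_self_eq_norm_sq] at this
    nlinarith [norm_nonneg E0]
  obtain ⟨x₀, hx₀, hmin⟩ := (isCompact_sphere (0 : H4) 1).exists_isMinOn
    ⟨E0, by simpa using hE⟩ (quartic_continuous he).continuousOn
  have hx₀' : x₀ ≠ 0 := by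
    intro h
    rw [h] at hx₀
    simp at hx₀
  refine ⟨quartic e x₀, quartic_pos he hx₀', fun x => ?_⟩
  rcases eq_or_ne x 0 with rfl | hx
  · have : quartic e (0 : H4) = 0 := by simp [quartic]
    rw [this]
    simp
  · have hn : 0 < ‖x‖ := norm_pos_iff.2 hx
    have h1 : ‖x‖⁻¹ • x ∈ Metric.sphere (0 : H4) 1 := by
      rw [mem_sphere_zero_iff_norm, norm_smul, norm_inv, norm_norm, inv_mul_cancel₀ hn.ne']
    have h2 : quartic e x₀ ≤ quartic e (‖x‖⁻¹ • x) := hmin h1
    rw [quartic_smul he] at h2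
    calc quartic e x₀ * ‖x‖ ^ 4 ≤ (‖x‖⁻¹ ^ 4 * quartic e x) * ‖x‖ ^ 4 := by gcongr
      _ = quartic e x := by field_simp

lemma normSq_contDiff {n : ℕ} {e : Fin n → H4 → H4} (he : IsLieBasis SG e) :
    ContDiff ℝ 3 (normSq mu e) := by
  unfold normSq
  simp only [mu_apply]
  refine ContDiff.sum fun a _ => ContDiff.sum fun i _ => ?_
  exact ((contDiff_const.mul ((e_contDiff he a i).inner ℝ contDiff_id)).add contDiff_const).pow 2

lemma normSq_proper {n : ℕ} {e : Fin n → H4 → H4} (he : IsLieBasis SG e) (c : ℝ) :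
    IsCompact {x | normSq mu e x ≤ c} := by
  obtain ⟨δ, hδ, hb⟩ := quartic_bound he
  have hclosed : IsClosed {x | normSq mu e x ≤ c} :=
    isClosed_le (normSq_contDiff he).continuous continuous_const
  -- bound of the quartic form
  set B : ℝ := ∑ a, ∑ i, (2 * |c| + 2 * (shift a (e i)) ^ 2) with hB
  have hq : ∀ x, normSq mu e x ≤ c → quartic e x ≤ B := by
    intro x hx
    rw [hB, quartic]
    refine Finset.sum_le_sum fun a _ => Finset.sum_le_sum fun i _ => ?_
    have h1 : mu a x (e i) ^ 2 ≤ |c| := by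
      have h2 : mu a x (e i) ^ 2 ≤ normSq mu e x := by
        unfold normSq
        refine le_trans ?_ (Finset.single_le_sum (f := fun a => ∑ i, mu a x (e i) ^ 2)
          (fun a _ => Finset.sum_nonneg fun i _ => sq_nonneg _) (Finset.mem_univ a))
        exact Finset.single_le_sum (f := fun i => mu a x (e i) ^ 2)
          (fun i _ => sq_nonneg _) (Finset.mem_univ i)
      exact h2.trans (hx.trans (le_abs_self c))
    have h3 : 2⁻¹ * (inner ℝ (HS.J a (e i x)) x : ℝ) = mu a x (e i) - shift a (e i) := by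
      rw [mu_apply]; ring
    rw [h3]
    nlinarith [sq_nonneg (mu a x (e i) + shift a (e i))]
  have hbdd : Bornology.IsBounded {x | normSq mu e x ≤ c} := by
    rw [isBounded_iff_forall_norm_le]
    refine ⟨1 + B / δ, fun x hx => ?_⟩
    have h1 : δ * ‖x‖ ^ 4 ≤ B := (hb x).trans (hq x hx)
    have h2 : ‖x‖ ^ 4 ≤ B / δ := by
      rw [le_div_iff₀ hδ]
      linarith
    have h3 : ‖x‖ ≤ 1 + ‖x‖ ^ 4 := by
      rcases le_total ‖x‖ 1 with h | h
      · have := pow_nonneg (norm_nonneg x) 4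
        linarith
      · have : ‖x‖ ≤ ‖x‖ ^ 4 := le_self_pow₀ h (by norm_num)
        linarith
    linarith
  exact Metric.isCompact_of_isClosed_isBounded hclosed hbdd

end Pool.Agent.K9h42.HK
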