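import Pool.Agent.K9h42.HK.Defs

/-!
General facts on linear hyperHamiltonian actions.
-/

set_option autoImplicit false

open Set Filter Topology

namespace Pool.Agent.K9h42.HK

variable {V G : Type} [NormedAddCommGroup V] [InnerProductSpace ℝ V] [Group G] [MulAction G V]

lemma HyperStr.skew (H : HyperStr V) (a : Fin 3) (u v : V) :
    inner ℝ (H.J a u) v = - inner ℝ u (H.J a v) := by
  have h1 := H.isom a (H.J a u) v
  rw [H.sq, inner_neg_left] at h1
  linarith

lemma lie_skew {H : HyperStr V} (hG : Preserves H G)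
    {X : V → V} (hX : X ∈ lieAlg V G) (u v : V) :
    inner ℝ (X u) v = - inner ℝ u (X v) := by
  obtain ⟨γ, h2, h3⟩ := hX
  have h4 : HasDerivAt (fun s => inner ℝ (γ s • u) (γ s • v)) _ 0 :=
    (h3 u).inner ℝ (h3 v)
  have h5 : (fun s => inner ℝ (γ s • u) (γ s • v)) =
      fun _ => (inner ℝ u v : ℝ) := by
    funext s
    exact hG.metric _ u v
  rw [h5] at h4
  have h6 := h4.unique (hasDerivAt_const (0 : ℝ) (inner ℝ u v : ℝ))
  rw [h2, one_smul, one_smul] at h6
  linarith

lemma lie_comm [FiniteDimensional ℝ V] {H : HyperStr V} (hG : Preserves H G)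
    {X : V → V} (hX : X ∈ lieAlg V G) (a : Fin 3) (v : V) :
    X (H.J a v) = H.J a (X v) := by
  obtain ⟨γ, h2, h3⟩ := hX
  have h4 := h3 (H.J a v)
  have h5 : (fun s => γ s • (H.J a v)) = fun s => H.J a (γ s • v) := by
    funext s
    exact hG.complex _ a v
  rw [h5] at h4
  exact h4.unique ((LinearMap.toContinuousLinearMap (H.J a)).hasFDerivAt.comp_hasDerivAt (0 : ℝ) (h3 v))

lemma quad_symm [FiniteDimensional ℝ V] {H : HyperStr V} (hG : Preserves H G)
    {X : V → V} (hX : X ∈ lieAlg V G) (a : Fin 3) (u v : V) :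
    inner ℝ (H.J a (X u)) v = inner ℝ (H.J a (X v)) u := by
  rw [H.skew, lie_skew hG hX, neg_neg, lie_comm hG hX, real_inner_comm]

/-- The gradient of `x ↦ ½ ⟪J_a X x, x⟫ + c`. -/
lemma quad_grad [FiniteDimensional ℝ V] [CompleteSpace V] {H : HyperStr V} (hG : Preserves H G)
    {X : V →L[ℝ] V} (hX : (X : V → V) ∈ lieAlg V G) (a : Fin 3) (c : ℝ) (x : V) :
    HasGradientAt (fun y => 2⁻¹ * inner ℝ (H.J a (X y)) y + c) (H.J a (X x)) x := by
  rw [hasGradientAt_iff_hasFDerivAt]
  have h1 : HasFDerivAt (fun y => H.J a (X y))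
      ((LinearMap.toContinuousLinearMap (H.J a)).comp X) x :=
    ((LinearMap.toContinuousLinearMap (H.J a)).comp X).hasFDerivAt
  have h2 := ((h1.inner ℝ (hasFDerivAt_id x)).const_mul (2⁻¹ : ℝ)).add_const c
  refine h2.congr_fderiv ?_
  ext v
  simp only [ContinuousLinearMap.smul_apply, ContinuousLinearMap.comp_apply,
    ContinuousLinearMap.prod_apply, fderivInnerCLM_apply, InnerProductSpace.toDual_apply_apply,
    ContinuousLinearMap.id_apply, id, smul_eq_mul, LinearMap.coe_toContinuousLinearMap']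
  rw [quad_symm hG hX a v x]
  ring

lemma quad_equiv {H : HyperStr V} (hG : Preserves H G)
    (X : V → V) (a : Fin 3) (g : G) (x : V) :
    inner ℝ (H.J a (g • X (g⁻¹ • (g • x)))) (g • x) = inner ℝ (H.J a (X x)) x := by
  rw [inv_smul_smul, ← hG.complex, hG.metric]

end Pool.Agent.K9h42.HK
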